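import Mathlib

namespace Pool.Agent.Results.MP_8dadf2_al.Counter

/-- The free associative ring on a set `S`. -/
abbrev A (S : Type) : Type := FreeAlgebra ℤ S

/-- The Teichmüller vector `⟨r⟩ = (r, r^p, r^{p^2}, …)`. -/
def teich {S : Type} (p : ℕ) (r : A S) : ℕ → A S := fun k => r ^ (p ^ k)

/-- The statement Q1 for the prime `p`. -/
def Q1 (p : ℕ) : Prop :=
  ∀ (S : Type) (r : ℕ), 1 ≤ r → ∀ f : Fin r → A S, Function.Injective f → (∀ i, f i ≠ 0) →
    (∀ i j, i ≠ j → f i ≠ - f j) → LinearIndependent ℤ (fun i => teich p (f i))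

noncomputable def x : A (Fin 2) := FreeAlgebra.ι ℤ 0
noncomputable def y : A (Fin 2) := FreeAlgebra.ι ℤ 1

noncomputable def L : Fin 6 → A (Fin 2) :=
  ![(x - 1) * x, (x - 1) * (x + 1), x * (x + 1), x - 1, x, x + 1]
noncomputable def R : Fin 6 → A (Fin 2) :=
  ![x + 1, x, x - 1, x * (x + 1), (x - 1) * (x + 1), (x - 1) * x]
def c : Fin 6 → ℤ := ![1, -2, 1, 1, -2, 1]

lemma RL (i : Fin 6) : R i * L i = (x - 1) * x * (x + 1) := by
  fin_cases i <;> simp [L, R] <;> noncomm_ring

lemma pw (i : Fin 6) (m : ℕ) :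
    (L i * y * R i) ^ (m + 1) = L i * ((y * ((x - 1) * x * (x + 1))) ^ m * y) * R i := by
  induction m with
  | zero => simp
  | succ m ih =>
    rw [pow_succ, ih, pow_succ, ← RL i]
    simp only [mul_assoc]

lemma rel (G : A (Fin 2)) : ∑ i, c i • (L i * G * R i) = 0 := by
  simp [Fin.sum_univ_succ, L, R, c]
  noncomm_ring

noncomputable def φ : A (Fin 2) →ₐ[ℤ] Matrix (Fin 2) (Fin 2) ℤ :=
  FreeAlgebra.lift ℤ ![!![10, 0; 0, 100], !![0, 1; 0, 0]]

def val : Fin 6 → ℤ := ![9090, 9900, 10890, 90900, 99990, 108900]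

lemma hφ (i : Fin 6) : φ (L i * y * R i) 0 1 = val i := by
  have hx : φ x = !![10, 0; 0, 100] := by simp [φ, x]
  have hy : φ y = !![0, 1; 0, 0] := by simp [φ, y]
  fin_cases i <;>
    simp only [L, R, val, map_mul, map_add, map_sub, map_one, hx, hy, Fin.zero_eta, Fin.mk_one,
      Fin.reduceFinMk, Matrix.cons_val] <;> decide

theorem result : ∀ p : ℕ, p.Prime → Odd p → ¬ Q1 p := by
  intro p hp _ h
  have hli := h (Fin 2) 6 (by norm_num) (fun i => L i * y * R i) ?_ ?_ ?_
  · have h0 : ∑ i, c i • teich p (L i * y * R i) = 0 := by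
      funext k
      obtain ⟨m, hm⟩ : ∃ m, p ^ k = m + 1 := ⟨p ^ k - 1, by have := pow_pos hp.pos k; omega⟩
      simp only [Finset.sum_apply, Pi.smul_apply, teich, hm, pw, Pi.zero_apply]
      exact rel _
    have := Fintype.linearIndependent_iff.1 hli c h0 0
    simp [c] at this
  · intro i j hij
    have := congrArg (fun z => φ z 0 1) hij
    simp only [hφ] at this
    revert i j
    have : ∀ i j, val i = val j → i = j := by decide
    intro i j _ h
    exact this i j h
  · intro i hi
    have := congrArg (fun z => φ z 0 1) hi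
    simp only [hφ, map_zero, Matrix.zero_apply] at this
    exact (by decide : ∀ i, val i ≠ 0) i this
  · intro i j _ hij
    have := congrArg (fun z => φ z 0 1) hij
    simp only [hφ, map_neg, Matrix.neg_apply] at this
    exact (by decide : ∀ i j, val i ≠ - val j) i j this

end Pool.Agent.Results.MP_8dadf2_al.Counter
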